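import Pool.Agent.H47.ST.Targets

/-!
Board stk_modules, row TST (backup copy): insertion of a new smallest letter and `T`.
-/

namespace Pool.Agent.H47.STK

open Finset Pool.Agent.H47.ST

/-- stack after the input -/
def stk : List ℕ → List ℕ → List ℕ
  | [], st => st
  | a :: inp, st => stk inp (a :: st.dropWhile (fun x => decide (x < a)))

/-- output during the input -/
def outp : List ℕ → List ℕ → List ℕ
  | [], _ => []
  | a :: inp, st => st.takeWhile (fun x => decide (x < a)) ++
      outp inp (a :: st.dropWhile (fun x => decide (x < a)))

theorem run_append' : ∀ (a b st : List ℕ), run (a ++ b) st = outp a st ++ run b (stk a st)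
  | [], b, st => by simp [outp, stk]
  | x :: a, b, st => by
    rw [List.cons_append]
    simp only [run, outp, stk]
    rw [run_append' a b, List.append_assoc]

theorem stk_append' : ∀ (a b st : List ℕ), stk (a ++ b) st = stk b (stk a st)
  | [], b, st => by simp [stk]
  | x :: a, b, st => by
    rw [List.cons_append]
    simp only [stk]
    rw [stk_append' a b]

theorem tw_map (a : ℕ) : ∀ st : List ℕ,
    (st.map Nat.succ).takeWhile (fun x => decide (x < Nat.succ a)) =
      (st.takeWhile (fun x => decide (x < a))).map Nat.succ ∧
    (st.map Nat.succ).dropWhile (fun x => decide (x < Nat.succ a)) =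
      (st.dropWhile (fun x => decide (x < a))).map Nat.succ
  | [] => by simp
  | b :: st => by
    obtain ⟨h1, h2⟩ := tw_map a st
    rw [List.map_cons]
    by_cases hb : b < a
    · have hb' : Nat.succ b < Nat.succ a := Nat.succ_lt_succ hb
      rw [List.takeWhile_cons_of_pos (by simpa using hb'),
        List.takeWhile_cons_of_pos (by simpa using hb),
        List.dropWhile_cons_of_pos (by simpa using hb'),
        List.dropWhile_cons_of_pos (by simpa using hb), h1, h2, List.map_cons]
      exact ⟨rfl, rfl⟩
    · have hb' : ¬ Nat.succ b < Nat.succ a := fun h => hb (Nat.lt_of_succ_lt_succ h)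
      rw [List.takeWhile_cons_of_neg (by simpa using hb'),
        List.takeWhile_cons_of_neg (by simpa using hb),
        List.dropWhile_cons_of_neg (by simpa using hb'),
        List.dropWhile_cons_of_neg (by simpa using hb), List.map_cons]
      exact ⟨rfl, rfl⟩

theorem run_map_succ : ∀ (v st : List ℕ),
    run (v.map Nat.succ) (st.map Nat.succ) = (run v st).map Nat.succ
  | [], st => rfl
  | a :: v, st => by
    obtain ⟨h1, h2⟩ := tw_map a st
    rw [List.map_cons]
    simp only [run]
    rw [h1, h2, ← List.map_cons, run_map_succ v, List.map_append]

theorem run_zero : ∀ (u st : List ℕ), (∀ x ∈ u, 0 < x) → run u (0 :: st) = 0 :: run u st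
  | [], st, _ => rfl
  | a :: u, st, h => by
    have ha : 0 < a := h a List.mem_cons_self
    simp only [run]
    rw [List.takeWhile_cons_of_pos (by simpa using ha),
      List.dropWhile_cons_of_pos (by simpa using ha), List.cons_append]

theorem run_zero_cons (u st : List ℕ) (h : ∀ x ∈ u, 0 < x) :
    run (0 :: u) st = 0 :: run u st := by
  have h1 : st.takeWhile (fun x => decide (x < 0)) = [] := by
    cases st with
    | nil => rfl
    | cons b st => rw [List.takeWhile_cons_of_neg (by simp)]
  have h2 : st.dropWhile (fun x => decide (x < 0)) = st := by
    cases st with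
    | nil => rfl
    | cons b st => rw [List.dropWhile_cons_of_neg (by simp)]
  simp only [run]
  rw [h1, h2, List.nil_append]
  exact run_zero u st h

theorem len_outp : ∀ (a st : List ℕ),
    (outp a st).length + (stk a st).length = a.length + st.length
  | [], st => by simp [outp, stk]
  | x :: a, st => by
    have h := len_outp a (x :: st.dropWhile (fun y => decide (y < x)))
    have h1 : (st.takeWhile (fun y => decide (y < x))).length +
        (st.dropWhile (fun y => decide (y < x))).length = st.length := by
      rw [← List.length_append, List.takeWhile_append_dropWhile]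
    simp only [outp, stk, List.length_append, List.length_cons] at h ⊢
    omega

theorem stk_rev_cons (a : ℕ) (v : List ℕ) : stk (a :: v).reverse [] =
    a :: (stk v.reverse []).dropWhile (fun x => decide (x < a)) := by
  rw [List.reverse_cons, stk_append']
  simp only [stk]

theorem stk_sub : ∀ (v : List ℕ), ∀ x ∈ stk v.reverse [], x ∈ v
  | [], x, hx => by simp [stk] at hx
  | a :: v, x, hx => by
    rw [stk_rev_cons] at hx
    rcases List.mem_cons.1 hx with rfl | hx
    · exact List.mem_cons_self
    · exact List.mem_cons_of_mem _ (stk_sub v x ((List.dropWhile_sublist _).subset hx))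

theorem dw_filter (a : ℕ) : ∀ L : List ℕ, L.Pairwise (· < ·) →
    L.dropWhile (fun x => decide (x < a)) = L.filter (fun x => decide (a ≤ x))
  | [], _ => rfl
  | b :: L, h => by
    obtain ⟨h1, h2⟩ := List.pairwise_cons.1 h
    by_cases hb : b < a
    · rw [List.dropWhile_cons_of_pos (by simpa using hb), dw_filter a L h2,
        List.filter_cons_of_neg (by simpa using hb)]
    · rw [List.dropWhile_cons_of_neg (by simpa using hb)]
      symm
      rw [List.filter_eq_self]
      intro x hx
      have hb' : a ≤ b := Nat.le_of_not_lt hb
      rcases List.mem_cons.1 hx with rfl | hx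
      · simpa using hb'
      · have := h1 x hx
        have : a ≤ x := by omega
        simpa using this

theorem stk_sorted : ∀ (v : List ℕ), v.Nodup → (stk v.reverse []).Pairwise (· < ·)
  | [], _ => by simp [stk]
  | a :: v, h => by
    obtain ⟨h1, h2⟩ := List.nodup_cons.1 h
    have ih := stk_sorted v h2
    rw [stk_rev_cons, List.pairwise_cons]
    constructor
    · intro x hx
      have hxv : x ∈ v := stk_sub v x ((List.dropWhile_sublist _).subset hx)
      rw [dw_filter a _ ih, List.mem_filter] at hx
      have h3 : a ≤ x := by simpa using hx.2
      have h4 : a ≠ x := by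
        rintro rfl
        exact h1 hxv
      omega
    · exact List.Pairwise.sublist (List.dropWhile_sublist _) ih

theorem nr_stk : ∀ (v : List ℕ), v.Nodup → ∀ h,
    nr h v + ((stk v.reverse []).filter (fun x => decide (h ≤ x))).length = v.length
  | [], _, h => by simp [stk, nr]
  | a :: v, hn, h => by
    obtain ⟨h1, h2⟩ := List.nodup_cons.1 hn
    have ih := nr_stk v h2
    have hs := stk_sorted v h2
    rw [stk_rev_cons, dw_filter a _ hs]
    by_cases ha : h ≤ a
    · rw [List.filter_cons_of_pos (by simpa using ha), List.filter_filter]
      have h3 : (stk v.reverse []).filter (fun x => decide (h ≤ x) && decide (a ≤ x)) =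
          (stk v.reverse []).filter (fun x => decide (a + 1 ≤ x)) := by
        apply List.filter_congr
        intro x hx
        have h4 : a ≠ x := by
          rintro rfl
          exact h1 (stk_sub v _ hx)
        by_cases h5 : a ≤ x
        · have h6 : h ≤ x := by omega
          have h7 : a + 1 ≤ x := by omega
          simp only [h5, h6, h7, decide_true, Bool.and_self]
        · have h7 : ¬ a + 1 ≤ x := by omega
          simp only [h5, h7, decide_false, Bool.and_false]
      rw [h3]
      have := ih (a + 1)
      simp only [nr, ha, if_true, List.length_cons]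
      omega
    · rw [List.filter_cons_of_neg (by simpa using ha), List.filter_filter]
      have h3 : (stk v.reverse []).filter (fun x => decide (h ≤ x) && decide (a ≤ x)) =
          (stk v.reverse []).filter (fun x => decide (h ≤ x)) := by
        apply List.filter_congr
        intro x hx
        by_cases h5 : h ≤ x
        · have h6 : a ≤ x := by omega
          simp only [h5, h6, decide_true, Bool.and_self]
        · simp only [h5, decide_false, Bool.false_and]
      rw [h3]
      have := ih h
      simp only [nr, ha, if_false, List.length_cons]
      omega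

theorem nr_outp (v : List ℕ) (hv : v.Nodup) : (outp v.reverse []).length = nr 0 v := by
  have h1 := nr_stk v hv 0
  have h2 : (stk v.reverse []).filter (fun x => decide (0 ≤ x)) = stk v.reverse [] := by
    rw [List.filter_eq_self]
    intro x _
    simp
  rw [h2] at h1
  have h3 := len_outp v.reverse []
  rw [List.length_reverse, List.length_nil] at h3
  omega

theorem nr_map_succ' (v : List ℕ) : ∀ h, nr (h + 1) (v.map Nat.succ) = nr h v := by
  induction v with
  | nil => intro h; rfl
  | cons a v ih =>
    intro h
    simp only [List.map_cons, nr, Nat.succ_eq_add_one, Nat.add_le_add_iff_right]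
    rw [ih (a + 1), ih h]

theorem nr_zero_map_succ' (v : List ℕ) : nr 0 (v.map Nat.succ) = nr 0 v := by
  cases v with
  | nil => rfl
  | cons a v =>
    simp only [List.map_cons, nr, Nat.succ_eq_add_one, Nat.zero_le, if_true]
    exact nr_map_succ' v (a + 1)

theorem nodup_step (w : List ℕ) (p : ℕ) (hw : w.Nodup) : (step w p).Nodup := by
  have h1 : (w.map Nat.succ).Nodup := hw.map Nat.succ_injective
  have h2 : (0 :: w.map Nat.succ).Nodup := by
    rw [List.nodup_cons]
    refine ⟨?_, h1⟩
    intro h
    obtain ⟨x, _, hx⟩ := List.mem_map.1 h
    exact Nat.succ_ne_zero x hx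
  have h3 : (step w p).Perm (0 :: w.map Nat.succ) := by
    unfold step
    refine List.perm_middle.trans ?_
    rw [List.take_append_drop]
  exact h3.nodup_iff.2 h2

theorem pf_TST (hR : T_RUN) : T_TST := by
  intro w p hw hp
  have hpos : ∀ x ∈ ((w.map Nat.succ).take p).reverse, 0 < x := by
    intro x hx
    have hx' := (List.take_sublist _ _).subset (List.mem_reverse.1 hx)
    obtain ⟨y, _, hy⟩ := List.mem_map.1 hx'
    omega
  have h1 : T (step w p) = outp ((w.map Nat.succ).drop p).reverse [] ++
      0 :: run ((w.map Nat.succ).take p).reverse (stk ((w.map Nat.succ).drop p).reverse []) := by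
    unfold T
    rw [hR _ (List.nodup_reverse.2 (nodup_step w p hw))]
    have h2 : (step w p).reverse = ((w.map Nat.succ).drop p).reverse ++
        0 :: ((w.map Nat.succ).take p).reverse := by
      unfold step
      rw [List.reverse_append, List.reverse_cons, List.append_assoc, List.singleton_append]
    rw [h2, run_append', run_zero_cons _ _ hpos]
  have h2 : (T w).map Nat.succ = outp ((w.map Nat.succ).drop p).reverse [] ++
      run ((w.map Nat.succ).take p).reverse (stk ((w.map Nat.succ).drop p).reverse []) := by
    unfold T
    rw [hR _ (List.nodup_reverse.2 hw), ← run_map_succ, List.map_nil, ← run_append',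
      ← List.reverse_append, List.take_append_drop, List.map_reverse]
  have h3 : gT w p = (outp ((w.map Nat.succ).drop p).reverse []).length := by
    unfold gT
    rw [← nr_zero_map_succ', List.map_drop, nr_outp]
    exact (hw.map Nat.succ_injective).sublist (List.drop_sublist _ _)
  rw [h1]
  unfold step
  rw [h2, h3, List.take_left', List.drop_left']
  · rfl
  · rfl

end Pool.Agent.H47.STK
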