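import Pool.Agent.H47.ST.Targets

namespace Pool.Agent.H47.STK

open Finset Pool.Agent.H47.ST

theorem flt_up_app (e h : ℕ) (X Y : List ℕ) : up e h (X ++ Y) = up e h X ++ up e (top h X) Y := by
  induction X generalizing h with
  | nil => simp [up, top]
  | cons r X ih =>
    by_cases hr : h ≤ r
    · have h1 : max h (r + 1) = r + 1 := by omega
      simp [up, top, hr, h1, ih]
    · have h1 : max h (r + 1) = h := by omega
      simp [up, top, hr, h1, ih]

theorem flt_up_len (e h : ℕ) (X : List ℕ) : (up e h X).length = X.length := by
  induction X generalizing h with
  | nil => simp [up]
  | cons r X ih =>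
    by_cases hr : h ≤ r
    · simp [up, hr, ih]
    · simp [up, hr, ih]

theorem flt_top_app (h : ℕ) (X Y : List ℕ) : top h (X ++ Y) = top (top h X) Y := by
  induction X generalizing h with
  | nil => simp [top]
  | cons r X ih => simp [top, ih]

theorem flt_upR (e h : ℕ) (st : List (List ℕ)) : (upR e h st).flatten = up e h st.flatten := by
  induction st generalizing h with
  | nil => simp [upR, up]
  | cons B st ih => simp [upR, flt_up_app, ih]

theorem flt_upR_len (e h : ℕ) (st : List (List ℕ)) :
    (upR e h st).map List.length = st.map List.length := by
  induction st generalizing h with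
  | nil => simp [upR]
  | cons B st ih => simp [upR, flt_up_len, ih]

theorem flt_mir (st : List (List ℕ)) : (mir st).flatten = st.flatten.reverse := by
  unfold mir
  rw [List.reverse_flatten]

theorem flt_mir_len (st : List (List ℕ)) :
    (mir st).map List.length = (st.map List.length).reverse := by
  unfold mir
  rw [List.map_reverse, List.map_map]
  have : (List.length ∘ List.reverse : List ℕ → ℕ) = List.length := by
    funext x; simp
  rw [this]

theorem pf_FLT : T_FLT := by
  intro Ls X Y Rs
  constructor
  · unfold place
    have h1 : (upL (1 - 1) (top 0 X) Ls).flatten = (up 0 (top 0 X) Ls.flatten.reverse).reverse := by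
      unfold upL
      rw [flt_mir, flt_upR, flt_mir]
    rw [List.flatten_append, List.flatten_cons, h1, flt_upR]
    unfold ins
    have h2 : top 0 X.reverse = top 0 X := by
      clear h1
      have key : ∀ (h : ℕ) (B : List ℕ), top h B.reverse = top h B := by
        intro h B
        induction B generalizing h with
        | nil => simp
        | cons r B ih =>
          have hm : ∀ (a b : ℕ) (C : List ℕ), top (max a b) C = max a (top b C) := by
            intro a b C
            induction C generalizing b with
            | nil => simp [top]
            | cons c C ihC => simp only [top]; rw [max_assoc, ihC]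
          rw [List.reverse_cons, flt_top_app, ih]
          simp only [top]
          rw [max_comm h (r + 1), hm, max_comm]
      exact key 0 X
    have h3 : (Ls.flatten ++ X).reverse = X.reverse ++ Ls.flatten.reverse := by simp
    rw [h3, flt_up_app (1 - 1), flt_up_app 1, h2]
    simp
  · unfold place
    have h4 : (upL (1 - 1) (top 0 X) Ls).map List.length = Ls.map List.length := by
      unfold upL
      rw [flt_mir_len, flt_upR_len, flt_mir_len, List.reverse_reverse]
    rw [List.map_append, List.map_cons, h4, flt_upR_len]
    have h5 : (ins 1 X Y).length = X.length + Y.length + 1 := by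
      unfold ins
      simp [flt_up_len]
      omega
    rw [h5]

end Pool.Agent.H47.STK
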