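import Pool.Agent.H47.ST.Targets

namespace Pool.Agent.H47.STK

open Finset Pool.Agent.H47.ST

theorem mir_wt (R : ℕ) (W U : ℝ) (e hl r hr : ℕ) (he : e < 2) :
    wt R W U (1 - e) hr r hl = wt R W U e hl r hr := by
  have h1 : 1 - (1 - e) = e := by omega
  have hL : Lh (1 - e) hr r hl = Lh e hl r hr := by
    unfold Lh
    rw [h1, min_comm]
  have hw : walker hr r hl ↔ walker hl r hr := by
    unfold walker
    exact or_comm
  have hp : pend (1 - e) hr r hl ↔ pend e hl r hr := by
    unfold pend
    rw [h1]
    exact or_comm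
  unfold wt
  rw [hL]
  simp only [hw, hp]

theorem pf_MIR (h1 : T_APP) (h2 : T_TOP) : T_MIR := by
  obtain ⟨ht1, ht2, ht3, -⟩ := h2
  intro R W U e hl hr X he
  induction X generalizing hl with
  | nil => simp [phC]
  | cons r B ih =>
    rw [List.reverse_cons, h1]
    have htop : top 0 [r] = r + 1 := by simp [top]
    rw [htop]
    have e1 : phC R W U (1 - e) hr B.reverse (max (r + 1) hl) =
        phC R W U e (max hl (r + 1)) B hr := by
      rw [max_comm (r + 1) hl]
      exact ih (max hl (r + 1))
    rw [e1]
    show _ * (wt R W U (1 - e) (max hr (top 0 B.reverse)) r (max (top 0 []) hl) * 1) =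
      wt R W U e hl r (max (top 0 B) hr) * phC R W U e (max hl (r + 1)) B hr
    have h0 : max (top 0 []) hl = hl := by simp [top]
    rw [h0, ht3, max_comm hr (top 0 B), mul_one, mir_wt R W U e hl r _ he, mul_comm]

end Pool.Agent.H47.STK
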